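import Mathlib

/-!
Point spaces of locally temperate frames are locally strongly sober.
-/

set_option autoImplicit false

universe u

namespace Pool.Agent.Results.MP_405999_gt.Main

/-- A filter on a frame: contains the top, is upward closed and closed under binary meets.
The improper filter is allowed. -/
structure IsFilter {L : Type u} [Order.Frame L] (F : Set L) : Prop where
  top_mem : ⊤ ∈ F
  upper : ∀ a b : L, a ≤ b → a ∈ F → b ∈ F
  inf_mem : ∀ a b : L, a ∈ F → b ∈ F → a ⊓ b ∈ F

/-- A filter is completely prime if it meets every set whose supremum it contains. -/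
def IsCompletelyPrimeFilter {L : Type u} [Order.Frame L] (F : Set L) : Prop :=
  IsFilter F ∧ ∀ S : Set L, sSup S ∈ F → ∃ a ∈ S, a ∈ F

/-- A filter is Scott-open if it meets every (nonempty) directed set whose supremum it
contains. -/
def IsScottOpenFilter {L : Type u} [Order.Frame L] (F : Set L) : Prop :=
  IsFilter F ∧ ∀ D : Set L, D.Nonempty → DirectedOn (· ≤ ·) D → sSup D ∈ F → ∃ a ∈ D, a ∈ F

/-- The join of two filters: all meets of a member of the first and a member of the second. -/
def filterJoin {L : Type u} [Order.Frame L] (F G : Set L) : Set L :=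
  {w | ∃ a ∈ F, ∃ b ∈ G, w = a ⊓ b}

/-- A frame is locally temperate if the join of any two Scott-open filters is Scott-open. -/
def LocallyTemperate (L : Type u) [Order.Frame L] : Prop :=
  ∀ F G : Set L, IsScottOpenFilter F → IsScottOpenFilter G → IsScottOpenFilter (filterJoin F G)

/-- The points of a frame: its completely prime filters. -/
structure Pt (L : Type u) [Order.Frame L] where
  carrier : Set L
  isCompletelyPrime : IsCompletelyPrimeFilter carrier

/-- The basic (in fact: all) open sets of the space of points. -/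
def opn {L : Type u} [Order.Frame L] (a : L) : Set (Pt L) := {x | a ∈ x.carrier}

/-- The topology of the space of points: the open sets are exactly the sets `opn a`. -/
instance ptTopology (L : Type u) [Order.Frame L] : TopologicalSpace (Pt L) where
  IsOpen U := ∃ a : L, U = opn a
  isOpen_univ := by
    refine ⟨⊤, ?_⟩
    ext x
    simp only [Set.mem_univ, true_iff]
    exact x.isCompletelyPrime.1.top_mem
  isOpen_inter := by
    rintro U V ⟨a, rfl⟩ ⟨b, rfl⟩
    refine ⟨a ⊓ b, ?_⟩
    ext x
    constructor
    · rintro ⟨h1, h2⟩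
      exact x.isCompletelyPrime.1.inf_mem a b h1 h2
    · intro h
      exact ⟨x.isCompletelyPrime.1.upper _ _ inf_le_left h,
        x.isCompletelyPrime.1.upper _ _ inf_le_right h⟩
  isOpen_sUnion := by
    intro S hS
    refine ⟨sSup {a | opn a ∈ S}, ?_⟩
    ext x
    constructor
    · rintro ⟨U, hU, hx⟩
      obtain ⟨a, rfl⟩ := hS U hU
      exact x.isCompletelyPrime.1.upper a _ (le_sSup hU) hx
    · intro h
      obtain ⟨a, ha, hax⟩ := x.isCompletelyPrime.2 _ h
      exact ⟨opn a, ha, hax⟩

/-- The set of limits of an ultrafilter: the points all of whose open neighbourhoods belong to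
the ultrafilter. -/
def limits {X : Type u} [TopologicalSpace X] (U : Ultrafilter X) : Set X :=
  {x | ∀ V : Set X, IsOpen V → x ∈ V → V ∈ U}

/-- A space is locally strongly sober if the set of limits of each ultrafilter is empty or the
closure of exactly one point. -/
def LocallyStronglySober (X : Type u) [TopologicalSpace X] : Prop :=
  ∀ U : Ultrafilter X, limits U = ∅ ∨ ∃! x : X, limits U = closure {x}

section proofs

variable {L : Type u} [Order.Frame L]

lemma isOpen_opn (a : L) : IsOpen (opn a) := ⟨a, rfl⟩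

lemma cp_scott {F : Set L} (h : IsCompletelyPrimeFilter F) : IsScottOpenFilter F :=
  ⟨h.1, fun D _ _ hs => h.2 D hs⟩

lemma opn_inf (a b : L) : opn (a ⊓ b) = opn a ∩ opn b := by
  ext x
  constructor
  · intro h
    exact ⟨x.isCompletelyPrime.1.upper _ _ inf_le_left h,
      x.isCompletelyPrime.1.upper _ _ inf_le_right h⟩
  · rintro ⟨h1, h2⟩
    exact x.isCompletelyPrime.1.inf_mem a b h1 h2

lemma sup_mem (x : Pt L) {a b : L} (h : a ⊔ b ∈ x.carrier) : a ∈ x.carrier ∨ b ∈ x.carrier := by
  have h' : sSup {a, b} ∈ x.carrier := by rwa [sSup_pair]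
  obtain ⟨c, hc, hcx⟩ := x.isCompletelyPrime.2 _ h'
  rcases hc with rfl | rfl
  · exact Or.inl hcx
  · exact Or.inr hcx

lemma opn_sup (a b : L) : opn (a ⊔ b) = opn a ∪ opn b := by
  ext x
  constructor
  · intro h
    exact sup_mem x h
  · rintro (h | h)
    · exact x.isCompletelyPrime.1.upper _ _ le_sup_left h
    · exact x.isCompletelyPrime.1.upper _ _ le_sup_right h

lemma opn_bot : opn (⊥ : L) = ∅ := by
  ext x
  simp only [Set.mem_empty_iff_false, iff_false]
  intro h
  have h' : sSup (∅ : Set L) ∈ x.carrier := by rwa [sSup_empty]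
  obtain ⟨c, hc, _⟩ := x.isCompletelyPrime.2 _ h'
  exact hc

/-- The Hofmann-Mislove separation step, valid in every frame: a Scott-open filter not
containing `a` is contained in a point not containing `a`. -/
lemma exists_point {F : Set L} (hF : IsScottOpenFilter F) {a : L} (ha : a ∉ F) :
    ∃ x : Pt L, F ⊆ x.carrier ∧ a ∉ x.carrier := by
  classical
  -- a maximal element above `a` outside `F`
  obtain ⟨p, hap, hp⟩ : ∃ p, a ≤ p ∧ Maximal (fun q => q ∈ {q : L | q ∉ F}) p := by
    apply zorn_le_nonempty₀ {q : L | q ∉ F}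
    · intro c hcF hc y hy
      refine ⟨sSup c, ?_, fun z hz => le_sSup hz⟩
      intro hs
      obtain ⟨b, hb, hbF⟩ := hF.2 c ⟨y, hy⟩ hc.directedOn hs
      exact hcF hb hbF
    · exact ha
  have hpF : p ∉ F := hp.1
  have hmax : ∀ q, p ≤ q → q ∉ F → q ≤ p := fun q hq hqF => hp.2 hqF hq
  refine ⟨⟨{v | ¬ v ≤ p}, ⟨⟨?_, ?_, ?_⟩, ?_⟩⟩, ?_, ?_⟩
  · intro h
    apply hpF
    exact hF.1.upper _ _ h hF.1.top_mem
  · intro b c hbc hb hc
    exact hb (hbc.trans hc)
  · intro b c hb hc hbc
    have h1 : p ⊔ b ∈ F := by
      by_contra h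
      exact hb (le_sup_right.trans (hmax _ le_sup_left h))
    have h2 : p ⊔ c ∈ F := by
      by_contra h
      exact hc (le_sup_right.trans (hmax _ le_sup_left h))
    have h3 : (p ⊔ b) ⊓ (p ⊔ c) ∈ F := hF.1.inf_mem _ _ h1 h2
    rw [← sup_inf_left] at h3
    have h4 : p ⊔ b ⊓ c = p := sup_eq_left.mpr hbc
    rw [h4] at h3
    exact hpF h3
  · intro S hS
    by_contra hcon
    push Not at hcon
    apply hS
    apply sSup_le
    intro b hb
    by_contra hbp
    exact hcon b hb hbp
  · intro v hv hvp
    exact hpF (hF.1.upper _ _ hvp hv)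
  · intro h
    exact h hap

lemma mem_limits_iff (U : Ultrafilter (Pt L)) (x : Pt L) :
    x ∈ limits U ↔ sSup {a : L | opn a ∉ U} ∉ x.carrier := by
  constructor
  · intro hx hs
    obtain ⟨a, ha, hax⟩ := x.isCompletelyPrime.2 _ hs
    exact ha (hx _ (isOpen_opn a) hax)
  · rintro hx V ⟨a, rfl⟩ hxa
    by_contra ha
    exact hx (x.isCompletelyPrime.1.upper a _ (le_sSup ha) hxa)

lemma mem_closure_iff' (y z : Pt L) : y ∈ closure {z} ↔ y.carrier ⊆ z.carrier := by
  rw [mem_closure_iff]
  constructor
  · intro h a ha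
    obtain ⟨w, hw1, hw2⟩ := h (opn a) (isOpen_opn a) ha
    rw [Set.mem_singleton_iff] at hw2
    subst hw2
    exact hw1
  · rintro h V ⟨a, rfl⟩ ha
    exact ⟨z, h ha, rfl⟩

/-- Sharper form: it suffices that the join of any two points of the frame is Scott-open. -/
theorem of_points (h : ∀ x y : Pt L, IsScottOpenFilter (filterJoin x.carrier y.carrier)) :
    LocallyStronglySober (Pt L) := by
  intro U
  rcases Set.eq_empty_or_nonempty (limits U) with he | ⟨x₀, hx₀⟩
  · exact Or.inl he
  right
  set A : Set L := {a : L | opn a ∉ U} with hA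
  have hAne : A.Nonempty := by
    refine ⟨⊥, ?_⟩
    show opn (⊥ : L) ∉ U
    rw [opn_bot]
    exact U.empty_notMem
  have hAdir : DirectedOn (· ≤ ·) A := by
    intro a ha b hb
    refine ⟨a ⊔ b, ?_, le_sup_left, le_sup_right⟩
    show opn (a ⊔ b) ∉ U
    rw [opn_sup, Ultrafilter.union_mem_iff]
    rintro (h1 | h1)
    · exact ha h1
    · exact hb h1
  -- the generic point
  let zc : Set L := {a | ∃ x ∈ limits U, a ∈ x.carrier}
  have hz : IsCompletelyPrimeFilter zc := by
    refine ⟨⟨⟨x₀, hx₀, x₀.isCompletelyPrime.1.top_mem⟩, ?_, ?_⟩, ?_⟩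
    · rintro a b hab ⟨x, hx, hax⟩
      exact ⟨x, hx, x.isCompletelyPrime.1.upper a b hab hax⟩
    · rintro a b ⟨x, hx, hax⟩ ⟨y, hy, hby⟩
      by_contra hcon
      have hscott := h x y
      have hsup : sSup A ∈ filterJoin x.carrier y.carrier := by
        by_contra hns
        obtain ⟨w, hw1, hw2⟩ := exists_point hscott hns
        apply hcon
        refine ⟨w, (mem_limits_iff U w).2 hw2, hw1 ⟨a, hax, b, hby, rfl⟩⟩
      obtain ⟨c, hcA, c1, hc1, c2, hc2, rfl⟩ := hscott.2 A hAne hAdir hsup
      apply hcA
      rw [opn_inf]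
      exact Filter.inter_mem (hx _ (isOpen_opn c1) hc1) (hy _ (isOpen_opn c2) hc2)
    · rintro S ⟨x, hx, hSx⟩
      obtain ⟨a, haS, hax⟩ := x.isCompletelyPrime.2 S hSx
      exact ⟨a, haS, x, hx, hax⟩
  let z : Pt L := ⟨zc, hz⟩
  have hlim : limits U = closure {z} := by
    ext y
    rw [mem_closure_iff']
    constructor
    · intro hy a hay
      exact ⟨y, hy, hay⟩
    · intro hyz
      rw [mem_limits_iff]
      intro hs
      obtain ⟨x, hx, hsx⟩ := hyz hs
      exact (mem_limits_iff U x).1 hx hsx
  refine ⟨z, hlim, ?_⟩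
  intro z' hz'
  have h1 : closure {z'} = closure {z} := by rw [← hz', ← hlim]
  have h2 : z'.carrier ⊆ z.carrier := by
    rw [← mem_closure_iff', ← h1]
    exact subset_closure rfl
  have h3 : z.carrier ⊆ z'.carrier := by
    rw [← mem_closure_iff', h1]
    exact subset_closure rfl
  cases z' with
  | mk c hc =>
    have : c = zc := Set.Subset.antisymm h2 h3
    subst this
    rfl

end proofs

/-- Answer to Q1: the space of points of every locally temperate frame is locally strongly
sober. -/
theorem result : ∀ (L : Type u) [Order.Frame L], LocallyTemperate L →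
    LocallyStronglySober (Pt L) := by
  intro L _ hL
  exact of_points fun x y => hL _ _ (cp_scott x.isCompletelyPrime) (cp_scott y.isCompletelyPrime)

end Pool.Agent.Results.MP_405999_gt.Main
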